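import Pool.Agent.H54.ZK.TopFU

/-! A countable model of ZF in which every first-countable Hausdorff space is a k-space, while some
first-countable Hausdorff space is not Fréchet-Urysohn. -/

namespace Pool.Agent.Results.MP_67b169_lc.KWithoutFU

open Pool.Agent.H54.ZK Pool.Agent.H40.Bspt

theorem result : ∃ (M : Type) (E : M → M → Prop), Countable M ∧ IsZF E ∧ StK E ∧ ¬ StFU E :=
  main

end Pool.Agent.Results.MP_67b169_lc.KWithoutFU
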